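import Pool.Agent.H55.CG.Targets

/-!
# The order of the gap of the slope of the copolymer critical curve: patterns (rows PTM, PIG)
-/

set_option autoImplicit false

open MeasureTheory ProbabilityTheory Filter Topology
open Pool.Agent.H95 Pool.Agent.H95.Cop Pool.Agent.H55.CG

namespace Pool.Agent.H60.CG

theorem pf_PTM : T_PTM := by
  intro q R k L hq
  have hmem : ∀ (k : ℕ) (L : List (ℕ × ℕ)), L ∈ PT q R k ↔ okL q R L ∧ L.length = k := by
    intro k
    induction k with
    | zero =>
      intro L
      constructor
      · intro h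
        have h' : L = [] := Finset.mem_singleton.mp h
        subst h'
        exact ⟨fun p hp => absurd hp (by simp), rfl⟩
      · rintro ⟨-, h⟩
        have h' : L = [] := List.length_eq_zero_iff.mp h
        rw [h']
        exact Finset.mem_singleton_self _
    | succ k ih =>
      intro L
      constructor
      · intro h
        obtain ⟨c, hc, rfl⟩ := Finset.mem_image.mp h
        obtain ⟨h1, h2⟩ := Finset.mem_product.mp hc
        obtain ⟨h3, h4⟩ := Finset.mem_product.mp h1
        obtain ⟨h5, h6⟩ := Finset.mem_Icc.mp h3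
        obtain ⟨h7, h8⟩ := Finset.mem_Ico.mp h4
        obtain ⟨h9, h10⟩ := (ih c.2).mp h2
        refine ⟨?_, by rw [List.length_cons, h10]⟩
        intro p hp
        rcases List.mem_cons.mp hp with rfl | hp
        · exact ⟨h5, h6, h7, h8⟩
        · exact h9 p hp
      · rintro ⟨h1, h2⟩
        cases L with
        | nil => simp at h2
        | cons p L =>
          have hp := h1 p (List.mem_cons_self)
          refine Finset.mem_image.mpr ⟨(p, L), Finset.mem_product.mpr ⟨Finset.mem_product.mpr
            ⟨Finset.mem_Icc.mpr ⟨hp.1, hp.2.1⟩, Finset.mem_Ico.mpr ⟨hp.2.2.1, hp.2.2.2⟩⟩,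
            (ih L).mpr ⟨fun p' hp' => h1 p' (List.mem_cons_of_mem _ hp'), ?_⟩⟩, rfl⟩
          simpa using h2
  have hcard : ∀ k : ℕ, (PT q R k).card ≤ (R * q) ^ k := by
    intro k
    induction k with
    | zero => simp [PT]
    | succ k ih =>
      refine (Finset.card_image_le).trans ?_
      rw [Finset.card_product, Finset.card_product, Nat.card_Icc, Nat.card_Ico, pow_succ,
        mul_comm]
      refine Nat.mul_le_mul ih (Nat.mul_le_mul (by omega) (by omega))
  have htot : ∀ (L : List (ℕ × ℕ)), okL q R L → tot L ≤ L.length * (R + 2 * q) := by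
    intro L
    induction L with
    | nil => intro _; simp [tot]
    | cons p L ih =>
      intro h
      have hp := h p (List.mem_cons_self)
      have h1 := ih fun p' hp' => h p' (List.mem_cons_of_mem _ hp')
      simp only [tot, List.length_cons]
      have h2 : p.1 + p.2 ≤ R + 2 * q := by omega
      nlinarith
  refine ⟨hmem k L, hcard k, ?_, ?_⟩
  · intro h
    obtain ⟨h1, h2⟩ := (hmem k L).mp h
    rw [← h2]
    exact htot L h1
  · intro h hk
    obtain ⟨h1, h2⟩ := (hmem k L).mp h
    cases L with
    | nil =>
      simp at h2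
      omega
    | cons p L =>
      have hp := h1 p (List.mem_cons_self)
      simp only [tot]
      omega

theorem pf_PIG (hPTM : T_PTM) : T_PIG := by
  intro q R k c S hq hc hS
  by_contra hcon
  push Not at hcon
  set T : ℕ := k * (R + 2 * q) with hT
  have hmaps : ∀ L ∈ PT q R k, tot L ∈ Finset.range (T + 1) := by
    intro L hL
    have := (hPTM q R k L hq).2.2.1 hL
    rw [Finset.mem_range]
    omega
  have h1 := Finset.sum_fiberwise_of_maps_to hmaps (fun L => wL c L)
  have h2 : ∑ m ∈ Finset.range (T + 1), ∑ L ∈ (PT q R k).filter (fun L => tot L = m), wL c L <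
      ∑ _m ∈ Finset.range (T + 1), S / ((T + 1 : ℕ) : ℝ) := by
    refine Finset.sum_lt_sum_of_nonempty ⟨0, by simp⟩ fun m hm => ?_
    exact hcon m (by have := Finset.mem_range.mp hm; omega)
  rw [h1, Finset.sum_const, Finset.card_range, nsmul_eq_mul] at h2
  have h3 : ((T + 1 : ℕ) : ℝ) ≠ 0 := by positivity
  rw [mul_div_cancel₀ _ h3] at h2
  linarith

end Pool.Agent.H60.CG
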