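import Pool.Agent.H55.CG.Targets

/-!
# The order of the gap of the slope of the copolymer critical curve (rows YXB, MSG)
-/

set_option autoImplicit false

open MeasureTheory ProbabilityTheory Filter Topology
open Pool.Agent.H95 Pool.Agent.H95.Cop Pool.Agent.H55.CG

namespace Pool.Agent.H60.CG

theorem pf_YXB (hPAT : T_PAT) (hDIS : T_DIS) (hGGS : T_GGS) (hPZS : T_PZS) : T_YXB := by
  classical
  intro K ℓ α a hl ha hk q R m P hq hm hP x
  by_cases h : ∃ L ∈ P, GB q ℓ L x
  · obtain ⟨L0, hL0, hG⟩ := h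
    have hY : YY K α a q ℓ P x = dc α a L0 * FB K ℓ L0 x := by
      unfold YY
      rw [Finset.sum_eq_single L0]
      · rw [if_pos hG]
      · intro L hL hne
        rw [if_neg]
        intro hG'
        exact hne (hDIS q R ℓ hq L L0 (shift (2 * ℓ) x) (hP L hL).1 (hP L0 hL0).1
          ((hP L hL).2.trans (hP L0 hL0).2.symm) hG' hG)
      · intro hn
        exact absurd hL0 hn
    have hne : L0 ≠ [] := by
      rintro rfl
      have := (hP [] hL0).2
      simp only [tot] at this
      omega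
    have := hPAT K ℓ α a hl ha hk q R L0 hq (hP L0 hL0).1 hne x
    rw [(hP L0 hL0).2] at this
    rw [hY]
    exact this
  · push Not at h
    have hY : YY K α a q ℓ P x = 0 := by
      unfold YY
      exact Finset.sum_eq_zero fun L hL => if_neg (h L hL)
    rw [hY, mul_zero]
    unfold XB
    exact Finset.sum_nonneg fun y _ => Finset.sum_nonneg fun z _ => (hPZS K x y (z - y) 0).2.2.1

lemma H_meas (a b : ℕ) : Measurable (fun x : ℕ → ℝ => H x a b) :=
  Finset.measurable_sum _ fun i _ => measurable_pi_apply i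

lemma H_dep {N : ℕ} {x x' : ℕ → ℝ} (h : ∀ i < N, x i = x' i) {a b : ℕ} (hb : b ≤ N) :
    H x a b = H x' a b :=
  Finset.sum_congr rfl fun i hi => h i (by have := Finset.mem_Ico.mp hi; omega)

lemma SX_meas (ℓ a b : ℕ) : Measurable (fun x : ℕ → ℝ => SX ℓ x a b) :=
  Finset.measurable_sum _ fun j _ => H_meas _ _

lemma SX_dep {ℓ n : ℕ} {x x' : ℕ → ℝ} (h : ∀ i < 2 * n * ℓ, x i = x' i) {a b : ℕ} (hb : b ≤ n) :
    SX ℓ x a b = SX ℓ x' a b := by
  refine Finset.sum_congr rfl fun j hj => H_dep h ?_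
  have hj' := Finset.mem_Ico.mp hj
  have h1 : 2 * j + 1 ≤ 2 * n := by omega
  exact Nat.mul_le_mul_right ℓ h1

lemma ex_meas (ℓ : ℕ) (t : Bool) (n : ℕ) (t' : Bool) (y z : ℕ) :
    Measurable (fun x : ℕ → ℝ => ex ℓ t n t' x y z) := by
  unfold ex
  refine ((?_ : Measurable _).add ((H_meas y z).div_const 2)).add ?_
  · cases t
    · simp
    · simpa using H_meas 0 y
  · cases t'
    · simp
    · simpa using H_meas z (2 * n * ℓ)

theorem pf_MSG : T_MSG := by
  intro K ℓ q t t' n
  refine ⟨?_, ?_, ?_, ?_⟩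
  · refine Measurable.div_const ?_ _
    refine Finset.measurable_sum _ fun y _ => Finset.measurable_sum _ fun z _ => ?_
    exact (Real.measurable_exp.comp (ex_meas ℓ t n t' y z)).const_mul _
  · cases t
    · have e : {x : ℕ → ℝ | Gd q ℓ false n x} =
          (⋂ j : ℕ, ⋂ (_ : 1 ≤ j), ⋂ (_ : j ≤ n),
            ({x : ℕ → ℝ | SX ℓ x 0 j < 0} ∩ {x : ℕ → ℝ | SX ℓ x (n - j) n < 0})) ∩
          ⋂ a : ℕ, ⋂ b : ℕ, ⋂ (_ : a + q ≤ b), ⋂ (_ : b ≤ n), {x : ℕ → ℝ | SX ℓ x a b < 0} := by
        ext x
        simp [Gd]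
      rw [e]
      refine MeasurableSet.inter ?_ ?_
      · exact MeasurableSet.iInter fun j => MeasurableSet.iInter fun _ =>
          MeasurableSet.iInter fun _ => (measurableSet_lt (SX_meas ℓ 0 j) measurable_const).inter
            (measurableSet_lt (SX_meas ℓ (n - j) n) measurable_const)
      · exact MeasurableSet.iInter fun a => MeasurableSet.iInter fun b =>
          MeasurableSet.iInter fun _ => MeasurableSet.iInter fun _ =>
            measurableSet_lt (SX_meas ℓ a b) measurable_const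
    · have e : {x : ℕ → ℝ | Gd q ℓ true n x} =
          ⋂ j : ℕ, ⋂ (_ : 1 ≤ j), ⋂ (_ : j ≤ n),
            ({x : ℕ → ℝ | 0 < SX ℓ x 0 j} ∩ {x : ℕ → ℝ | 0 < SX ℓ x (n - j) n}) := by
        ext x
        simp [Gd]
      rw [e]
      exact MeasurableSet.iInter fun j => MeasurableSet.iInter fun _ =>
        MeasurableSet.iInter fun _ => (measurableSet_lt measurable_const (SX_meas ℓ 0 j)).inter
          (measurableSet_lt measurable_const (SX_meas ℓ (n - j) n))
  · intro x x' h
    unfold gg
    congr 1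
    refine Finset.sum_congr rfl fun y hy => Finset.sum_congr rfl fun z hz => ?_
    have hy' := Finset.mem_Ico.mp hy
    have hz' := Finset.mem_Ico.mp hz
    have e : ex ℓ t n t' x y z = ex ℓ t n t' x' y z := by
      unfold ex
      rw [H_dep h (a := 0) (b := y) (by omega), H_dep h (a := y) (b := z) (by omega),
        H_dep h (a := z) (b := 2 * n * ℓ) le_rfl]
    rw [e]
  · intro x x' h
    cases t
    · refine propext ⟨?_, ?_⟩
      · rintro ⟨h1, h2⟩
        refine ⟨fun j hj hjn => ?_, fun a b hab hb => ?_⟩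
        · rw [← SX_dep h hjn, ← SX_dep h le_rfl]
          exact h1 j hj hjn
        · rw [← SX_dep h hb]
          exact h2 a b hab hb
      · rintro ⟨h1, h2⟩
        refine ⟨fun j hj hjn => ?_, fun a b hab hb => ?_⟩
        · rw [SX_dep h hjn, SX_dep h le_rfl]
          exact h1 j hj hjn
        · rw [SX_dep h hb]
          exact h2 a b hab hb
    · refine propext ⟨?_, ?_⟩
      · intro h1 j hj hjn
        rw [← SX_dep h hjn, ← SX_dep h le_rfl]
        exact h1 j hj hjn
      · intro h1 j hj hjn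
        rw [SX_dep h hjn, SX_dep h le_rfl]
        exact h1 j hj hjn

end Pool.Agent.H60.CG
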